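import Mathlib

/-! # Wheel inequality: the key lemma S2 (only the data of `a` and `b`)

`x = d_a`, `y = d_b`, `u = x + y`, `e = u + 2 h`, `g` the half arc of `ab`,
`sin² g = sin² x + sin² y + 2 sin x sin y cos e`. Claim:
`(1 - k) sin² e ≤ sin² (2 h + g)` with `k = 4 sin x cos (x + h) sin h`.
-/

namespace Pool.Agent.Helper72.EF

open Real

/-- From `sin² p ≤ sin² q` with `p, q ∈ [0, π/2]` conclude `p ≤ q`. -/
theorem le_of_sin_sq {p q : ℝ} (hp1 : p ≤ π / 2) (hq0 : 0 ≤ q)
    (h : sin p ^ 2 ≤ sin q ^ 2) : p ≤ q := by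
  by_contra hlt
  have hlt' : q < p := lt_of_not_ge hlt
  have h1 : sin q < sin p := sin_lt_sin_of_lt_of_le_pi_div_two (by linarith [pi_pos]) hp1 hlt'
  have h2 : 0 ≤ sin q := sin_nonneg_of_nonneg_of_le_pi hq0 (by linarith [pi_pos])
  nlinarith

/-- `sin² p - sin² q = sin (p + q) sin (p - q)`. -/
theorem sin_sq_sub (p q : ℝ) : sin p ^ 2 - sin q ^ 2 = sin (p + q) * sin (p - q) := by
  rw [sin_add, sin_sub]
  have h1 : cos p ^ 2 = 1 - sin p ^ 2 := by linarith [sin_sq_add_cos_sq p]
  have h2 : cos q ^ 2 = 1 - sin q ^ 2 := by linarith [sin_sq_add_cos_sq q]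
  have : (sin p * cos q + cos p * sin q) * (sin p * cos q - cos p * sin q) =
      sin p ^ 2 * cos q ^ 2 - cos p ^ 2 * sin q ^ 2 := by ring
  rw [this, h1, h2]; ring

theorem quad_form {u h : ℝ} (hu0 : 0 ≤ u) (hu1 : u ≤ π / 2) (hh0 : 0 ≤ h) (hh1 : h ≤ π / 4) :
    sin (u + h) * (sin u * cos (4 * h) + 2 / 3 * (cos u * sin (4 * h))) ≤
      cos h * sin (u + 2 * h) ^ 2 := by
  have hsu : 0 ≤ sin u := sin_nonneg_of_nonneg_of_le_pi hu0 (by linarith [pi_pos])
  have hcu : 0 ≤ cos u := cos_nonneg_of_neg_pi_div_two_le_of_le (by linarith [pi_pos]) hu1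
  have hsh : 0 ≤ sin h := sin_nonneg_of_nonneg_of_le_pi hh0 (by linarith [pi_pos])
  have hch : 0 ≤ cos h := cos_nonneg_of_neg_pi_div_two_le_of_le (by linarith [pi_pos])
    (by linarith [pi_pos])
  have hc2 : 0 ≤ cos (2 * h) := cos_nonneg_of_neg_pi_div_two_le_of_le (by linarith [pi_pos])
    (by linarith [pi_pos])
  have hc2' : cos (2 * h) ≤ 1 := cos_le_one _
  have e1 : sin (u + h) = sin u * cos h + cos u * sin h := sin_add u h
  have e2 : sin (u + 2 * h) = sin u * cos (2 * h) + cos u * sin (2 * h) := sin_add u (2 * h)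
  have e3 : sin (2 * h) = 2 * sin h * cos h := sin_two_mul h
  have e4 : cos (2 * h) = 2 * cos h ^ 2 - 1 := cos_two_mul h
  have e5 : sin (4 * h) = 2 * sin (2 * h) * cos (2 * h) := by
    rw [show 4 * h = 2 * (2 * h) by ring, sin_two_mul]
  have e6 : cos (4 * h) = 2 * cos (2 * h) ^ 2 - 1 := by
    rw [show 4 * h = 2 * (2 * h) by ring, cos_two_mul]
  have hpy : sin h ^ 2 + cos h ^ 2 = 1 := sin_sq_add_cos_sq h
  -- the difference is a quadratic form with nonnegative coefficients
  have hdiff : cos h * sin (u + 2 * h) ^ 2 -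
      sin (u + h) * (sin u * cos (4 * h) + 2 / 3 * (cos u * sin (4 * h))) =
      sin u ^ 2 * (cos h * sin (2 * h) ^ 2) +
      cos u ^ 2 * (sin (2 * h) * sin h * (4 / 3 - 2 / 3 * cos h ^ 2)) +
      sin u * cos u * (sin h * (1 + 2 / 3 * cos (2 * h) - 4 / 3 * cos (2 * h) ^ 2)) := by
    rw [e1, e2, e5, e6, e3, e4]
    have hs2 : sin h ^ 2 = 1 - cos h ^ 2 := by linarith
    ring_nf
    simp only [hs2]
    ring
  have p1 : 0 ≤ sin u ^ 2 * (cos h * sin (2 * h) ^ 2) := by positivity
  have hs2h : 0 ≤ sin (2 * h) := by rw [e3]; positivity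
  have p2 : 0 ≤ cos u ^ 2 * (sin (2 * h) * sin h * (4 / 3 - 2 / 3 * cos h ^ 2)) := by
    have : 0 ≤ 4 / 3 - 2 / 3 * cos h ^ 2 := by nlinarith [sq_nonneg (sin h)]
    positivity
  have p3 : 0 ≤ sin u * cos u * (sin h * (1 + 2 / 3 * cos (2 * h) - 4 / 3 * cos (2 * h) ^ 2)) := by
    have : 0 ≤ 1 + 2 / 3 * cos (2 * h) - 4 / 3 * cos (2 * h) ^ 2 := by nlinarith
    positivity
  linarith

/-- The comparison `3 cos (u + g) sin u ≤ 2 cos u sin (u + g)` for `u/2 ≤ g ≤ π/2`. -/
theorem cot_bound {u g : ℝ} (hu0 : 0 ≤ u) (hu1 : u ≤ π / 2) (hg : u / 2 ≤ g) (hg1 : g ≤ π / 2) :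
    3 * (cos (u + g) * sin u) ≤ 2 * (cos u * sin (u + g)) := by
  have h1 : 2 * (cos u * sin (u + g)) - 3 * (cos (u + g) * sin u) =
      (5 * sin g - sin (2 * u + g)) / 2 := by
    have a1 : sin g = sin (u + g) * cos u - cos (u + g) * sin u := by
      rw [← sin_sub]; congr 1; ring
    have a2 : sin (2 * u + g) = sin (u + g) * cos u + cos (u + g) * sin u := by
      rw [← sin_add]; congr 1; ring
    rw [a1, a2]; ring
  have h2 : sin (2 * u + g) = sin (2 * u) * cos g + cos (2 * u) * sin g := sin_add _ _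
  have hsg : 0 ≤ sin g := sin_nonneg_of_nonneg_of_le_pi (by linarith) (by linarith [pi_pos])
  have hcg : 0 ≤ cos g := cos_nonneg_of_neg_pi_div_two_le_of_le (by linarith [pi_pos]) hg1
  have hs2u : 0 ≤ sin (2 * u) := sin_nonneg_of_nonneg_of_le_pi (by linarith) (by linarith)
  have h3 : sin (2 * u) * cos g ≤ sin (2 * u) := by
    nlinarith [cos_le_one g]
  have h4 : cos (2 * u) * sin g ≤ sin g := by
    nlinarith [cos_le_one (2 * u)]
  have h5 : sin (2 * u) ≤ 4 * sin g := by
    have b1 : sin (2 * u) = 2 * sin u * cos u := sin_two_mul u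
    have b2 : sin u = 2 * sin (u / 2) * cos (u / 2) := by
      rw [← sin_two_mul]; congr 1; ring
    have b3 : sin (u / 2) ≤ sin g := sin_le_sin_of_le_of_le_pi_div_two (by linarith [pi_pos]) hg1 hg
    have b4 : 0 ≤ sin (u / 2) := sin_nonneg_of_nonneg_of_le_pi (by linarith) (by linarith [pi_pos])
    have b5 : sin u ≤ 2 * sin (u / 2) := by
      rw [b2]; nlinarith [cos_le_one (u / 2)]
    have b6 : 0 ≤ sin u := sin_nonneg_of_nonneg_of_le_pi hu0 (by linarith [pi_pos])
    rw [b1]
    nlinarith [cos_le_one u]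
  linarith

theorem key {x y h g : ℝ} (hx : 0 < x) (hy : 0 < y) (hh : 0 ≤ h)
    (he : x + y + 2 * h ≤ π / 2) (hg0 : 0 ≤ g) (hg1 : g ≤ π / 2)
    (hg : sin g ^ 2 = sin x ^ 2 + sin y ^ 2 + 2 * sin x * sin y * cos (x + y + 2 * h)) :
    (1 - 4 * sin x * cos (x + h) * sin h) * sin (x + y + 2 * h) ^ 2 ≤ sin (2 * h + g) ^ 2 := by
  have hpi := pi_pos
  have sx : 0 < sin x := sin_pos_of_pos_of_lt_pi hx (by linarith)
  have sy : 0 < sin y := sin_pos_of_pos_of_lt_pi hy (by linarith)
  have hce : 0 ≤ cos (x + y + 2 * h) :=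
    cos_nonneg_of_neg_pi_div_two_le_of_le (by linarith) he
  have hsxg : sin x ^ 2 ≤ sin g ^ 2 := by
    rw [hg]; have : 0 ≤ 2 * sin x * sin y * cos (x + y + 2 * h) := by positivity
    nlinarith [sq_nonneg (sin y)]
  have hsyg : sin y ^ 2 ≤ sin g ^ 2 := by
    rw [hg]; have : 0 ≤ 2 * sin x * sin y * cos (x + y + 2 * h) := by positivity
    nlinarith [sq_nonneg (sin x)]
  have hxg : x ≤ g := le_of_sin_sq (by linarith) hg0 hsxg
  have hyg : y ≤ g := le_of_sin_sq (by linarith) hg0 hsyg
  -- the product formula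
  have id1 : sin (x + y - g) * sin (x + y + g) = sin (x + y) ^ 2 - sin g ^ 2 := by
    rw [sin_sq_sub, mul_comm]
  have id2 : sin (x + y) ^ 2 - sin g ^ 2 = 4 * sin x * sin y * sin (x + y + h) * sin h := by
    have c1 : cos (x + y) - cos (x + y + 2 * h) = 2 * (sin (x + y + h) * sin h) := by
      have a1 : cos (x + y) = cos (x + y + h) * cos h + sin (x + y + h) * sin h := by
        rw [← cos_sub]; congr 1; ring
      have a2 : cos (x + y + 2 * h) = cos (x + y + h) * cos h - sin (x + y + h) * sin h := by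
        rw [← cos_add]; congr 1; ring
      rw [a1, a2]; ring
    have c2 : sin (x + y) ^ 2 = sin x ^ 2 + sin y ^ 2 + 2 * sin x * sin y * cos (x + y) := by
      rw [sin_add, cos_add]
      have s1 := sin_sq_add_cos_sq x
      have s2 := sin_sq_add_cos_sq y
      have t1 : cos x ^ 2 = 1 - sin x ^ 2 := by linarith
      have t2 : cos y ^ 2 = 1 - sin y ^ 2 := by linarith
      have : (sin x * cos y + cos x * sin y) ^ 2 = sin x ^ 2 * cos y ^ 2 + cos x ^ 2 * sin y ^ 2 +
          2 * sin x * sin y * (cos x * cos y) := by ring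
      rw [this, t1, t2]; ring
    rw [c2, hg]
    linear_combination 2 * sin x * sin y * c1
  have hsuh0 : 0 ≤ sin (x + y + h) := sin_nonneg_of_nonneg_of_le_pi (by linarith) (by linarith)
  have hsh0 : 0 ≤ sin h := sin_nonneg_of_nonneg_of_le_pi hh (by linarith)
  have hgu : g ≤ x + y := by
    have h0 : 0 ≤ sin (x + y) ^ 2 - sin g ^ 2 := by rw [id2]; positivity
    exact le_of_sin_sq hg1 (by linarith) (by linarith)
  -- the difference to be bounded
  have id3 : sin (x + y + 2 * h) ^ 2 - sin (2 * h + g) ^ 2 =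
      sin (x + y + g + 4 * h) * sin (x + y - g) := by
    rw [sin_sq_sub]
    congr 2 <;> ring
  suffices hmain : sin (x + y + g + 4 * h) * sin (x + y - g) ≤
      4 * sin x * cos (x + h) * sin h * sin (x + y + 2 * h) ^ 2 by
    nlinarith
  have hcxh : 0 ≤ cos (x + h) := cos_nonneg_of_neg_pi_div_two_le_of_le (by linarith) (by linarith)
  rcases hh.eq_or_lt with h0 | hpos
  · -- h = 0
    have hh0 : h = 0 := h0.symm
    subst hh0
    have : sin (x + y) ^ 2 - sin g ^ 2 = 0 := by rw [id2]; simp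
    have hge : x + y ≤ g := le_of_sin_sq (by linarith) hg0 (by linarith)
    have heq : x + y - g = 0 := by linarith
    rw [heq]; simp
  have hug_pos : 0 < sin (x + y + g) := sin_pos_of_pos_of_lt_pi (by linarith) (by linarith)
  have hum0 : 0 ≤ sin (x + y - g) := sin_nonneg_of_nonneg_of_le_pi (by linarith) (by linarith)
  -- it is enough to prove the reduced inequality W
  have hsu : 0 < sin (x + y) := sin_pos_of_pos_of_lt_pi (by linarith) (by linarith)
  have hch : 0 < cos h := cos_pos_of_mem_Ioo ⟨by linarith, by linarith⟩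
  have hse2 : 0 ≤ sin (x + y + 2 * h) := sin_nonneg_of_nonneg_of_le_pi (by linarith) (by linarith)
  have W : sin y * sin (x + y + h) * sin (x + y + g + 4 * h) ≤
      cos (x + h) * sin (x + y + 2 * h) ^ 2 * sin (x + y + g) := by
    rcases le_or_gt (sin (x + y + g + 4 * h)) 0 with hneg | hP
    · have l1 : sin y * sin (x + y + h) * sin (x + y + g + 4 * h) ≤ 0 :=
        mul_nonpos_of_nonneg_of_nonpos (by positivity) hneg
      have l2 : 0 ≤ cos (x + h) * sin (x + y + 2 * h) ^ 2 * sin (x + y + g) := by positivity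
      linarith
    set P := sin (x + y + g + 4 * h) with hPdef
    set B := sin (x + y) * cos (4 * h) + 2 / 3 * (cos (x + y) * sin (4 * h)) with hB
    have s1 : sin y * cos h ≤ sin (x + y) * cos (x + h) := by
      have hid : sin (x + y) * cos (x + h) - sin y * cos h = sin x * cos (x + y + h) := by
        have a1 : sin (x + y) = sin x * cos y + cos x * sin y := sin_add x y
        have a2 : cos (x + h) = cos x * cos h - sin x * sin h := cos_add x h
        have a3 : cos (x + y + h) = (cos x * cos y - sin x * sin y) * cos h -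
            (sin x * cos y + cos x * sin y) * sin h := by
          rw [cos_add (x + y) h, cos_add x y, sin_add x y]
        rw [a1, a2, a3]
        linear_combination (sin y * cos h) * (sin_sq_add_cos_sq x)
      have : 0 ≤ cos (x + y + h) :=
        cos_nonneg_of_neg_pi_div_two_le_of_le (by linarith) (by linarith)
      nlinarith [mul_nonneg sx.le this]
    have s2 : sin (x + y) * P ≤ sin (x + y + g) * B := by
      have e1 : P = sin (x + y + g) * cos (4 * h) + cos (x + y + g) * sin (4 * h) := by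
        rw [hPdef, sin_add]
      have cb := cot_bound (u := x + y) (g := g) (by linarith) (by linarith) (by linarith) hg1
      have s4 : 0 ≤ sin (4 * h) := sin_nonneg_of_nonneg_of_le_pi (by linarith) (by linarith)
      rw [e1, hB]
      nlinarith [mul_le_mul_of_nonneg_left cb s4]
    have s3 : sin (x + y + h) * B ≤ cos h * sin (x + y + 2 * h) ^ 2 :=
      quad_form (u := x + y) (h := h) (by linarith) (by linarith) hh (by linarith)
    have m1 : sin y * cos h * (sin (x + y) * P * sin (x + y + h)) ≤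
        sin (x + y) * cos (x + h) * (sin (x + y) * P * sin (x + y + h)) :=
      mul_le_mul_of_nonneg_right s1 (by positivity)
    have m2 : (sin (x + y) * P) * (sin (x + y) * cos (x + h) * sin (x + y + h)) ≤
        (sin (x + y + g) * B) * (sin (x + y) * cos (x + h) * sin (x + y + h)) :=
      mul_le_mul_of_nonneg_right s2 (by positivity)
    have m3 : (sin (x + y + h) * B) * (sin (x + y) * cos (x + h) * sin (x + y + g)) ≤
        (cos h * sin (x + y + 2 * h) ^ 2) * (sin (x + y) * cos (x + h) * sin (x + y + g)) :=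
      mul_le_mul_of_nonneg_right s3 (by positivity)
    have fin : (sin (x + y) * cos h) * (sin y * sin (x + y + h) * P) ≤
        (sin (x + y) * cos h) * (cos (x + h) * sin (x + y + 2 * h) ^ 2 * sin (x + y + g)) := by
      nlinarith
    exact le_of_mul_le_mul_left fin (by positivity)
  -- conclude
  have hfin : sin (x + y + g) * (sin (x + y + g + 4 * h) * sin (x + y - g)) ≤
      sin (x + y + g) * (4 * sin x * cos (x + h) * sin h * sin (x + y + 2 * h) ^ 2) := by
    have t1 : sin (x + y + g) * (sin (x + y + g + 4 * h) * sin (x + y - g)) =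
        (4 * sin x * sin h) * (sin y * sin (x + y + h) * sin (x + y + g + 4 * h)) := by
      have : sin (x + y - g) * sin (x + y + g) = 4 * sin x * sin y * sin (x + y + h) * sin h := by
        rw [id1, id2]
      linear_combination (sin (x + y + g + 4 * h)) * this
    rw [t1]
    have := mul_le_mul_of_nonneg_left W (show 0 ≤ 4 * sin x * sin h by positivity)
    nlinarith
  exact le_of_mul_le_mul_left hfin hug_pos

end Pool.Agent.Helper72.EF
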