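import Mathlib
import Pool.Agent.Helper72.EF.Key

/-! # Wheel inequality: quasi-concavity of `E_x` in the radius of `x` -/

namespace Pool.Agent.Helper72.EF

open Real

/-- Existence of the half arc. -/
theorem exists_half {v : ℝ} (h0 : 0 ≤ v) (h1 : v ≤ 1) :
    ∃ D : ℝ, 0 ≤ D ∧ D ≤ π / 2 ∧ sin D ^ 2 = v := by
  refine ⟨arcsin (sqrt v), arcsin_nonneg.mpr (sqrt_nonneg v), arcsin_le_pi_div_two _, ?_⟩
  have hs : sqrt v ≤ 1 := by rw [sqrt_le_one]; exact h1
  rw [sin_arcsin (by linarith [sqrt_nonneg v]) hs, sq_sqrt h0]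

theorem sin_add_sq (x y : ℝ) :
    sin (x + y) ^ 2 = sin x ^ 2 + sin y ^ 2 + 2 * sin x * sin y * cos (x + y) := by
  rw [sin_add, cos_add]
  have t1 : cos x ^ 2 = 1 - sin x ^ 2 := by linarith [sin_sq_add_cos_sq x]
  have t2 : cos y ^ 2 = 1 - sin y ^ 2 := by linarith [sin_sq_add_cos_sq y]
  have : (sin x * cos y + cos x * sin y) ^ 2 = sin x ^ 2 * cos y ^ 2 +
      cos x ^ 2 * sin y ^ 2 + 2 * sin x * sin y * (cos x * cos y) := by ring
  rw [this, t1, t2]; ring

/-- If `a + d ≤ ψ ≤ π` then `D ≤ a + d` and `a + d + D ≤ π`. -/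
theorem semi {a d D ψ : ℝ} (ha0 : 0 ≤ a) (ha1 : a ≤ π / 2) (hd0 : 0 ≤ d) (hd1 : d ≤ π / 2)
    (hD1 : D ≤ π / 2) (hψ : a + d ≤ ψ) (hψ1 : ψ ≤ π)
    (hD : sin D ^ 2 = sin a ^ 2 + sin d ^ 2 + 2 * sin a * sin d * cos ψ) :
    D ≤ a + d ∧ a + d + D ≤ π := by
  have hpi := pi_pos
  have sa : 0 ≤ sin a := sin_nonneg_of_nonneg_of_le_pi ha0 (by linarith)
  have sd : 0 ≤ sin d := sin_nonneg_of_nonneg_of_le_pi hd0 (by linarith)
  have hc : cos ψ ≤ cos (a + d) := cos_le_cos_of_nonneg_of_le_pi (by linarith) hψ1 hψ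
  have h1 : 0 ≤ sin (a + d + D) * sin (a + d - D) := by
    rw [← sin_sq_sub, sin_add_sq, hD]
    have : 0 ≤ 2 * sin a * sin d * (cos (a + d) - cos ψ) := by
      have : 0 ≤ cos (a + d) - cos ψ := by linarith
      positivity
    linarith
  constructor
  · by_contra hlt
    have hlt' : a + d < D := lt_of_not_ge hlt
    have p1 : 0 < sin (a + d + D) := sin_pos_of_pos_of_lt_pi (by linarith) (by linarith)
    have p2 : sin (a + d - D) < 0 := by
      have : 0 < sin (D - (a + d)) := sin_pos_of_pos_of_lt_pi (by linarith) (by linarith)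
      have h3 : sin (a + d - D) = - sin (D - (a + d)) := by rw [← sin_neg]; congr 1; ring
      linarith
    nlinarith
  · by_contra hlt
    have hlt' : π < a + d + D := lt_of_not_ge hlt
    have p1 : sin (a + d + D) < 0 := by
      have : 0 < sin (a + d + D - π) := sin_pos_of_pos_of_lt_pi (by linarith) (by linarith)
      rw [sin_sub_pi] at this; linarith
    have p2 : 0 < sin (a + d - D) := sin_pos_of_pos_of_lt_pi (by linarith) (by linarith)
    nlinarith

/-- Concavity step: the values `c ≤ a` (here `δ = a - c`). -/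
theorem qconc {a δ ψ d1 d d2 D1 D D2 : ℝ} (ha1 : a ≤ π / 2) (hδ0 : 0 ≤ δ) (hδa : δ ≤ a)
    (hd1 : 0 ≤ d1) (h1 : d1 ≤ d) (h2 : d ≤ d2) (hd2 : d2 ≤ π / 2)
    (hD1 : D ≤ π / 2)
    (h1D0 : 0 ≤ D1) (h1D1 : D1 ≤ π / 2) (h2D0 : 0 ≤ D2) (h2D1 : D2 ≤ π / 2)
    (e0 : sin D ^ 2 = sin a ^ 2 + sin d ^ 2 + 2 * sin a * sin d * cos ψ)
    (e1 : sin D1 ^ 2 = sin a ^ 2 + sin d1 ^ 2 + 2 * sin a * sin d1 * cos ψ)
    (e2 : sin D2 ^ 2 = sin a ^ 2 + sin d2 ^ 2 + 2 * sin a * sin d2 * cos ψ)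
    (hψ2 : a + d2 ≤ ψ) (hψ1 : ψ ≤ π)
    (b1 : D1 ≤ δ + d1) (b2 : D2 ≤ δ + d2) : D ≤ δ + d := by
  have hpi := pi_pos
  have ha0 : 0 ≤ a := by linarith
  have s1 := semi ha0 ha1 hd1 (by linarith) h1D1 (by linarith) hψ1 e1
  have s2 := semi ha0 ha1 (by linarith) hd2 h2D1 hψ2 hψ1 e2
  -- the function Q
  have hQ : ∀ z E : ℝ, sin E ^ 2 = sin a ^ 2 + sin z ^ 2 + 2 * sin a * sin z * cos ψ →
      sin (δ + z + E) * sin (δ + z - E) = sin δ ^ 2 - sin a ^ 2 - 2 * sin δ ^ 2 * sin z ^ 2 +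
        2 * (sin δ * cos δ) * (sin z * cos z) - 2 * (sin a * cos ψ) * sin z := by
    intro z E hE
    rw [← sin_sq_sub, hE, sin_add]
    have t1 : cos δ ^ 2 = 1 - sin δ ^ 2 := by linarith [sin_sq_add_cos_sq δ]
    have t2 : cos z ^ 2 = 1 - sin z ^ 2 := by linarith [sin_sq_add_cos_sq z]
    have : (sin δ * cos z + cos δ * sin z) ^ 2 = sin δ ^ 2 * cos z ^ 2 + cos δ ^ 2 * sin z ^ 2 +
        2 * (sin δ * cos δ) * (sin z * cos z) := by ring
    rw [this, t1, t2]; ring
  have hQ1 : 0 ≤ sin (δ + d1 + D1) * sin (δ + d1 - D1) :=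
    mul_nonneg (sin_nonneg_of_nonneg_of_le_pi (by linarith) (by linarith))
      (sin_nonneg_of_nonneg_of_le_pi (by linarith) (by linarith))
  have hQ2 : 0 ≤ sin (δ + d2 + D2) * sin (δ + d2 - D2) :=
    mul_nonneg (sin_nonneg_of_nonneg_of_le_pi (by linarith) (by linarith))
      (sin_nonneg_of_nonneg_of_le_pi (by linarith) (by linarith))
  rw [hQ d1 D1 e1] at hQ1
  rw [hQ d2 D2 e2] at hQ2
  have hQ0 : 0 ≤ sin (δ + d + D) * sin (δ + d - D) := by
    rw [hQ d D e0]
    have S1 : 0 ≤ sin d1 := sin_nonneg_of_nonneg_of_le_pi hd1 (by linarith)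
    have m1 : sin d1 ≤ sin d := sin_le_sin_of_le_of_le_pi_div_two (by linarith) (by linarith) h1
    have m2 : sin d ≤ sin d2 := sin_le_sin_of_le_of_le_pi_div_two (by linarith) hd2 h2
    have C0 : 0 ≤ cos d := cos_nonneg_of_neg_pi_div_two_le_of_le (by linarith) (by linarith)
    have C1 : 0 ≤ cos d1 := cos_nonneg_of_neg_pi_div_two_le_of_le (by linarith) (by linarith)
    have C2 : 0 ≤ cos d2 := cos_nonneg_of_neg_pi_div_two_le_of_le (by linarith) (by linarith)
    have n2 : cos d2 ≤ cos d1 := cos_le_cos_of_nonneg_of_le_pi (by linarith) (by linarith)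
      (by linarith)
    have sδ : 0 ≤ sin δ := sin_nonneg_of_nonneg_of_le_pi hδ0 (by linarith)
    have cδ : 0 ≤ cos δ := cos_nonneg_of_neg_pi_div_two_le_of_le (by linarith) (by linarith)
    -- the weight t
    obtain ⟨t, t0, t1, ht⟩ : ∃ t : ℝ, 0 ≤ t ∧ t ≤ 1 ∧ sin d = (1 - t) * sin d1 + t * sin d2 := by
      rcases eq_or_lt_of_le (m1.trans m2) with heq | hlt
      · exact ⟨0, le_refl _, zero_le_one, by linarith⟩
      · refine ⟨(sin d - sin d1) / (sin d2 - sin d1), ?_, ?_, ?_⟩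
        · apply div_nonneg <;> linarith
        · rw [div_le_one (by linarith)]; linarith
        · have : sin d2 - sin d1 ≠ 0 := by linarith
          field_simp; ring
    have hS0 : 0 ≤ sin d := by linarith
    have u0 : 0 ≤ 1 - t := by linarith
    have htt : 0 ≤ t * (1 - t) := by positivity
    -- the cosine is above the chord
    have hC : (1 - t) * cos d1 + t * cos d2 ≤ cos d := by
      apply le_of_sq_le_sq _ C0
      have p0 := sin_sq_add_cos_sq d
      have p1 := sin_sq_add_cos_sq d1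
      have p2 := sin_sq_add_cos_sq d2
      have : ((1 - t) * sin d1 + t * sin d2) ^ 2 + ((1 - t) * cos d1 + t * cos d2) ^ 2 =
          1 - t * (1 - t) * ((sin d1 - sin d2) ^ 2 + (cos d1 - cos d2) ^ 2) := by
        linear_combination (1 - t) * p1 + t * p2
      have h3 : 0 ≤ t * (1 - t) * ((sin d1 - sin d2) ^ 2 + (cos d1 - cos d2) ^ 2) := by positivity
      rw [ht] at p0
      linarith
    have hSC : (1 - t) * (sin d1 * cos d1) + t * (sin d2 * cos d2) ≤ sin d * cos d := by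
      have h3 : sin d * ((1 - t) * cos d1 + t * cos d2) ≤ sin d * cos d :=
        mul_le_mul_of_nonneg_left hC hS0
      have h4 : (1 - t) * (sin d1 * cos d1) + t * (sin d2 * cos d2) ≤
          sin d * ((1 - t) * cos d1 + t * cos d2) := by
        rw [ht]
        have : 0 ≤ t * (1 - t) * ((sin d2 - sin d1) * (cos d1 - cos d2)) := by
          have h5 : 0 ≤ sin d2 - sin d1 := by linarith
          have h6 : 0 ≤ cos d1 - cos d2 := by linarith
          positivity
        nlinarith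
      linarith
    have hSS : sin d ^ 2 ≤ (1 - t) * sin d1 ^ 2 + t * sin d2 ^ 2 := by
      rw [ht]
      nlinarith [mul_nonneg htt (sq_nonneg (sin d1 - sin d2))]
    have k1 : 2 * sin δ ^ 2 * sin d ^ 2 ≤
        2 * sin δ ^ 2 * ((1 - t) * sin d1 ^ 2 + t * sin d2 ^ 2) :=
      mul_le_mul_of_nonneg_left hSS (by positivity)
    have k2 : 2 * (sin δ * cos δ) * ((1 - t) * (sin d1 * cos d1) + t * (sin d2 * cos d2)) ≤
        2 * (sin δ * cos δ) * (sin d * cos d) :=
      mul_le_mul_of_nonneg_left hSC (by positivity)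
    have k3 := mul_nonneg u0 hQ1
    have k4 := mul_nonneg t0 hQ2
    have k5 : 2 * (sin a * cos ψ) * sin d =
        2 * (sin a * cos ψ) * ((1 - t) * sin d1 + t * sin d2) := by rw [ht]
    nlinarith
  by_contra hlt
  have hlt' : δ + d < D := lt_of_not_ge hlt
  have p1 : 0 < sin (δ + d + D) := sin_pos_of_pos_of_lt_pi (by linarith) (by linarith)
  have p2 : sin (δ + d - D) < 0 := by
    have : 0 < sin (D - (δ + d)) := sin_pos_of_pos_of_lt_pi (by linarith) (by linarith)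
    have h3 : sin (δ + d - D) = - sin (D - (δ + d)) := by rw [← sin_neg]; congr 1; ring
    linarith
  nlinarith

/-- Monotonicity when `D1 ≤ d1`. -/
theorem mono {a ψ d1 d D1 D : ℝ} (hd1 : 0 ≤ d1) (h1 : d1 ≤ d) (hd : d ≤ π / 2)
    (h1D0 : 0 ≤ D1) (h1D1 : D1 ≤ d1) (hD1 : D ≤ π / 2)
    (e0 : sin D ^ 2 = sin a ^ 2 + sin d ^ 2 + 2 * sin a * sin d * cos ψ)
    (e1 : sin D1 ^ 2 = sin a ^ 2 + sin d1 ^ 2 + 2 * sin a * sin d1 * cos ψ) :
    D + d1 ≤ D1 + d := by
  have hpi := pi_pos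
  set ε := d1 - D1 with hε
  have hε0 : 0 ≤ ε := by linarith
  set n := -(sin a * cos ψ) with hn
  have S1 : 0 ≤ sin d1 := sin_nonneg_of_nonneg_of_le_pi hd1 (by linarith)
  have T1 : 0 ≤ sin D1 := sin_nonneg_of_nonneg_of_le_pi h1D0 (by linarith)
  -- n ≥ sin d1 - sin D1
  have hn1 : sin d1 - sin D1 ≤ n := by
    have h2 : (sin d1 - n) ^ 2 ≤ sin D1 ^ 2 := by
      rw [e1, hn]
      have : (sin a * cos ψ) ^ 2 ≤ sin a ^ 2 := by
        rw [mul_pow]; nlinarith [sq_nonneg (sin a), cos_sq_le_one ψ]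
      nlinarith
    have := abs_le_of_sq_le_sq' h2 T1
    linarith [this.2]
  set p := (d + d1) / 2 with hp
  set r := (d - d1) / 2 with hr
  have hr0 : 0 ≤ r := by linarith
  have cp : 0 ≤ cos p := cos_nonneg_of_neg_pi_div_two_le_of_le (by linarith) (by linarith)
  have cr : 0 ≤ cos r := cos_nonneg_of_neg_pi_div_two_le_of_le (by linarith) (by linarith)
  have sr : 0 ≤ sin r := sin_nonneg_of_nonneg_of_le_pi hr0 (by linarith)
  have sh : 0 ≤ sin (ε / 2) := sin_nonneg_of_nonneg_of_le_pi (by linarith) (by linarith)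
  have ch : 0 ≤ cos (ε / 2) := cos_nonneg_of_neg_pi_div_two_le_of_le (by linarith) (by linarith)
  set v := p - ε / 2 with hv
  have sv : 0 ≤ sin v := sin_nonneg_of_nonneg_of_le_pi (by linarith) (by linarith)
  have svm : 0 ≤ sin (v - ε / 2) := sin_nonneg_of_nonneg_of_le_pi (by linarith) (by linarith)
  -- sin d1 - sin D1 = 2 sin (ε/2) cos (d1 - ε/2)
  have f1 : sin d1 - sin D1 = 2 * sin (ε / 2) * cos (d1 - ε / 2) := by
    have g1 : sin d1 = sin (d1 - ε / 2) * cos (ε / 2) + cos (d1 - ε / 2) * sin (ε / 2) := by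
      rw [← sin_add]; congr 1; ring
    have g2 : sin D1 = sin (d1 - ε / 2) * cos (ε / 2) - cos (d1 - ε / 2) * sin (ε / 2) := by
      rw [← sin_sub]; congr 1; rw [hε]; ring
    rw [g1, g2]; ring
  have f2 : cos v * cos r ≤ cos (d1 - ε / 2) := by
    have : cos (d1 - ε / 2) = cos v * cos r + sin v * sin r := by
      rw [← cos_sub]; congr 1; rw [hv, hp, hr]; ring
    rw [this]; nlinarith [mul_nonneg sv sr]
  have f3 : cos (ε / 2) * cos (2 * v) ≤ cos v * cos p := by
    have g1 : cos p = cos v * cos (ε / 2) - sin v * sin (ε / 2) := by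
      rw [← cos_add]; congr 1; rw [hv]; ring
    have g2 : sin (v - ε / 2) = sin v * cos (ε / 2) - cos v * sin (ε / 2) := sin_sub _ _
    have g3 : cos v * cos p - cos (ε / 2) * cos (2 * v) = sin v * sin (v - ε / 2) := by
      rw [g1, g2, cos_two_mul]
      linear_combination (-(cos (ε / 2))) * (sin_sq_add_cos_sq v)
    nlinarith [mul_nonneg sv svm]
  -- n cos p ≥ sin ε cos (2 v) cos r
  have f4 : sin ε * cos (2 * v) * cos r ≤ n * cos p := by
    have g1 : sin ε = 2 * sin (ε / 2) * cos (ε / 2) := by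
      rw [← sin_two_mul]; congr 1; ring
    have g2 : 2 * sin (ε / 2) * cos (d1 - ε / 2) * cos p ≤ n * cos p :=
      mul_le_mul_of_nonneg_right (by linarith) cp
    have g3 : 2 * sin (ε / 2) * cos p * (cos v * cos r) ≤ 2 * sin (ε / 2) * cos p *
        cos (d1 - ε / 2) := mul_le_mul_of_nonneg_left f2 (by positivity)
    have g4 : 2 * sin (ε / 2) * cos r * (cos (ε / 2) * cos (2 * v)) ≤
        2 * sin (ε / 2) * cos r * (cos v * cos p) := mul_le_mul_of_nonneg_left f3 (by positivity)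
    rw [g1]; nlinarith
  -- sin² D ≤ sin² (d - ε)
  have f5 : sin D ^ 2 ≤ sin (d - ε) ^ 2 := by
    have g1 : sin d - sin d1 = 2 * cos p * sin r := by
      have a1 : sin d = sin p * cos r + cos p * sin r := by
        rw [← sin_add]; congr 1; rw [hp, hr]; ring
      have a2 : sin d1 = sin p * cos r - cos p * sin r := by
        rw [← sin_sub]; congr 1; rw [hp, hr]; ring
      rw [a1, a2]; ring
    have g2 : sin d ^ 2 - sin (d - ε) ^ 2 - (sin d1 ^ 2 - sin (d1 - ε) ^ 2) =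
        4 * sin ε * cos (2 * v) * (sin r * cos r) := by
      rw [sin_sq_sub, sin_sq_sub]
      have a1 : d - (d - ε) = ε := by ring
      have a2 : d1 - (d1 - ε) = ε := by ring
      have a3 : d + (d - ε) = 2 * v + 2 * r := by rw [hv, hp, hr]; ring
      have a4 : d1 + (d1 - ε) = 2 * v - 2 * r := by rw [hv, hp, hr]; ring
      rw [a1, a2, a3, a4, sin_add (2 * v), sin_sub (2 * v), sin_two_mul r]; ring
    have g3 : sin (d1 - ε) ^ 2 = sin D1 ^ 2 := by congr 2; rw [hε]; ring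
    have g4 : sin D ^ 2 = sin D1 ^ 2 + (sin d ^ 2 - sin d1 ^ 2) - 2 * n * (sin d - sin d1) := by
      rw [e0, e1, hn]; ring
    rw [g4]
    rw [g3] at g2
    have g5 : 2 * n * (sin d - sin d1) = 4 * (n * cos p) * sin r := by rw [g1]; ring
    have g6 : 4 * (sin ε * cos (2 * v) * cos r) * sin r ≤ 4 * (n * cos p) * sin r :=
      mul_le_mul_of_nonneg_right (by linarith) sr
    nlinarith
  have := le_of_sin_sq hD1 (by linarith : 0 ≤ d - ε) f5
  linarith

end Pool.Agent.Helper72.EF
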