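import Mathlib
import Pool.Agent.Helper72.EF.Key

/-! # Wheel inequality: the end X2 (`x`, `y` and the hub on one unit circle) -/

namespace Pool.Agent.Helper72.EF

open Real

/-- `arccos (κ cos ·)` is 1-Lipschitz, in the form of two equations. -/
theorem lip {p q al be A B : ℝ} (hpq : p ^ 2 + q ^ 2 ≤ 1)
    (hA0 : 0 ≤ A) (hA1 : A ≤ π) (hB0 : 0 ≤ B) (hB1 : B ≤ π)
    (hA : cos A = p * cos al - q * sin al) (hB : cos B = p * cos be - q * sin be)
    (h1 : al ≤ be) : B - A ≤ be - al := by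
  rcases le_or_gt B A with hBA | hBA
  · linarith
  have sA : 0 ≤ sin A := sin_nonneg_of_nonneg_of_le_pi hA0 hA1
  have sB : 0 ≤ sin B := sin_nonneg_of_nonneg_of_le_pi hB0 hB1
  set TA := p * sin al + q * cos al with hTA
  set TB := p * sin be + q * cos be with hTB
  set m := 1 - (p ^ 2 + q ^ 2) with hm
  have hm0 : 0 ≤ m := by rw [hm]; linarith
  have pa := sin_sq_add_cos_sq al
  have pb := sin_sq_add_cos_sq be
  have eA : sin A ^ 2 = m + TA ^ 2 := by
    have : sin A ^ 2 = 1 - cos A ^ 2 := by linarith [sin_sq_add_cos_sq A]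
    rw [this, hA, hm, hTA]
    linear_combination (-(p ^ 2 + q ^ 2)) * pa
  have eB : sin B ^ 2 = m + TB ^ 2 := by
    have : sin B ^ 2 = 1 - cos B ^ 2 := by linarith [sin_sq_add_cos_sq B]
    rw [this, hB, hm, hTB]
    linear_combination (-(p ^ 2 + q ^ 2)) * pb
  have hcs : m + TA * TB ≤ sin A * sin B := by
    rcases le_or_gt (m + TA * TB) 0 with hn | hp
    · have : 0 ≤ sin A * sin B := by positivity
      linarith
    · apply le_of_sq_le_sq _ (by positivity)
      have : (sin A * sin B) ^ 2 = (m + TA ^ 2) * (m + TB ^ 2) := by rw [mul_pow, eA, eB]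
      rw [this]
      nlinarith [mul_nonneg hm0 (sq_nonneg (TA - TB))]
  have hcos : cos (be - al) ≤ cos (B - A) := by
    rw [cos_sub B A, cos_sub be al]
    have h3 : cos B * cos A + TA * TB = (p ^ 2 + q ^ 2) * (cos be * cos al + sin be * sin al) := by
      rw [hA, hB, hTA, hTB]; ring
    have h4 : cos be * cos al + sin be * sin al ≤ 1 := by
      rw [← cos_sub]; exact cos_le_one _
    nlinarith
  by_contra hlt
  have hlt' : be - al < B - A := lt_of_not_ge hlt
  have := cos_lt_cos_of_nonneg_of_le_pi (by linarith) (by linarith : B - A ≤ π) hlt'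
  linarith

/-- `u ↦ arcsin (c sin u)` is superadditive (`c ≥ 1`). -/
theorem superadd {c u v w U V W : ℝ} (hc : 1 ≤ c) (hu : 0 ≤ u) (hv : 0 ≤ v)
    (huv : u + v ≤ w) (hw : w ≤ π / 2) (hU0 : 0 ≤ U) (hU1 : U ≤ π / 2) (hV0 : 0 ≤ V)
    (hV1 : V ≤ π / 2) (hW0 : 0 ≤ W)
    (hU : sin U = c * sin u) (hV : sin V = c * sin v) (hW : sin W = c * sin w) : U + V ≤ W := by
  have hpi := pi_pos
  have su : 0 ≤ sin u := sin_nonneg_of_nonneg_of_le_pi hu (by linarith)
  have sv : 0 ≤ sin v := sin_nonneg_of_nonneg_of_le_pi hv (by linarith)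
  have cu : 0 ≤ cos u := cos_nonneg_of_neg_pi_div_two_le_of_le (by linarith) (by linarith)
  have cv : 0 ≤ cos v := cos_nonneg_of_neg_pi_div_two_le_of_le (by linarith) (by linarith)
  have cU : 0 ≤ cos U := cos_nonneg_of_neg_pi_div_two_le_of_le (by linarith) hU1
  have cV : 0 ≤ cos V := cos_nonneg_of_neg_pi_div_two_le_of_le (by linarith) hV1
  have sU : 0 ≤ sin U := sin_nonneg_of_nonneg_of_le_pi hU0 (by linarith)
  have sV : 0 ≤ sin V := sin_nonneg_of_nonneg_of_le_pi hV0 (by linarith)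
  have hsw : sin (u + v) ≤ sin w := sin_le_sin_of_le_of_le_pi_div_two (by linarith) hw huv
  have hsuv : 0 ≤ sin (u + v) := sin_nonneg_of_nonneg_of_le_pi (by linarith) (by linarith)
  have hcuv : 0 ≤ cos (u + v) := cos_nonneg_of_neg_pi_div_two_le_of_le (by linarith) (by linarith)
  -- U ≥ u and V ≥ v, so the cosines compare
  have hcU : cos U ≤ cos u := by
    apply le_of_sq_le_sq _ cu
    have : sin u ^ 2 ≤ sin U ^ 2 := by
      rw [hU, mul_pow]
      have hc2 : 0 ≤ c ^ 2 - 1 := by nlinarith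
      nlinarith [mul_nonneg hc2 (sq_nonneg (sin u))]
    nlinarith [sin_sq_add_cos_sq u, sin_sq_add_cos_sq U]
  have hcV : cos V ≤ cos v := by
    apply le_of_sq_le_sq _ cv
    have : sin v ^ 2 ≤ sin V ^ 2 := by
      rw [hV, mul_pow]
      have hc2 : 0 ≤ c ^ 2 - 1 := by nlinarith
      nlinarith [mul_nonneg hc2 (sq_nonneg (sin v))]
    nlinarith [sin_sq_add_cos_sq v, sin_sq_add_cos_sq V]
  -- U + V ≤ π / 2
  have hsum : U + V ≤ π / 2 := by
    have h1 : sin u ^ 2 + sin v ^ 2 ≤ sin (u + v) ^ 2 := by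
      have c2 : sin (u + v) ^ 2 = sin u ^ 2 + sin v ^ 2 + 2 * sin u * sin v * cos (u + v) := by
        rw [sin_add, cos_add]
        have t1 : cos u ^ 2 = 1 - sin u ^ 2 := by linarith [sin_sq_add_cos_sq u]
        have t2 : cos v ^ 2 = 1 - sin v ^ 2 := by linarith [sin_sq_add_cos_sq v]
        have : (sin u * cos v + cos u * sin v) ^ 2 = sin u ^ 2 * cos v ^ 2 +
            cos u ^ 2 * sin v ^ 2 + 2 * sin u * sin v * (cos u * cos v) := by ring
        rw [this, t1, t2]; ring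
      have : 0 ≤ 2 * sin u * sin v * cos (u + v) := by positivity
      linarith
    have h2 : sin U ^ 2 + sin V ^ 2 ≤ 1 := by
      have h3 : sin U ^ 2 + sin V ^ 2 = c ^ 2 * (sin u ^ 2 + sin v ^ 2) := by rw [hU, hV]; ring
      have h4 : c ^ 2 * sin (u + v) ^ 2 ≤ sin W ^ 2 := by
        rw [hW, mul_pow]
        apply mul_le_mul_of_nonneg_left _ (by positivity)
        exact pow_le_pow_left₀ hsuv hsw 2
      have h5 : sin W ^ 2 ≤ 1 := sin_sq_le_one W
      have h6 : c ^ 2 * (sin u ^ 2 + sin v ^ 2) ≤ c ^ 2 * sin (u + v) ^ 2 :=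
        mul_le_mul_of_nonneg_left h1 (by positivity)
      linarith
    have h7 : sin U ^ 2 ≤ sin (π / 2 - V) ^ 2 := by
      rw [sin_pi_div_two_sub]
      nlinarith [sin_sq_add_cos_sq V]
    have := le_of_sin_sq (p := U) (q := π / 2 - V) hU1 (by linarith) h7
    linarith
  -- compare the sines
  have hle : sin (U + V) ≤ sin W := by
    rw [sin_add, hU, hV, hW]
    have hc0 : 0 ≤ c := by linarith
    have e1 : c * sin u * cos V ≤ c * sin u * cos v := mul_le_mul_of_nonneg_left hcV (by positivity)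
    have e2 : cos U * (c * sin v) ≤ cos u * (c * sin v) :=
      mul_le_mul_of_nonneg_right hcU (by positivity)
    have e3 : c * sin (u + v) ≤ c * sin w := mul_le_mul_of_nonneg_left hsw hc0
    rw [sin_add] at e3
    nlinarith
  by_contra hlt
  have hlt' : W < U + V := lt_of_not_ge hlt
  have := sin_lt_sin_of_lt_of_le_pi_div_two (by linarith : -(π / 2) ≤ W) hsum hlt'
  linarith

/-- X2 in general form: on the unit circle through the hub with tangent direction `τ`, the half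
arc `D` of the chord to `a` grows by at most `δ` between half arcs `dy` and `dx`, as soon as
`(1 - k) sin² (dx - dy) ≤ sin² δ`, `k = 2 sin a (sin τ - sin a)`. -/
theorem xtwo {a t dy dx Dy Dx δ : ℝ} (hk : sin a ≤ sin t) (ha : 0 ≤ sin a)
    (hd : dy ≤ dx) (hd' : dx - dy ≤ π / 2)
    (hDy0 : 0 ≤ Dy) (hDx1 : Dx ≤ π / 2)
    (hDy : sin Dy ^ 2 = sin a ^ 2 + sin dy ^ 2 + 2 * sin a * sin dy * cos (t + dy))
    (hDx : sin Dx ^ 2 = sin a ^ 2 + sin dx ^ 2 + 2 * sin a * sin dx * cos (t + dx))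
    (hδ0 : 0 ≤ δ)
    (hδ : (1 - 2 * sin a * (sin t - sin a)) * sin (dx - dy) ^ 2 ≤ sin δ ^ 2) :
    Dx - Dy ≤ δ := by
  have hpi := pi_pos
  by_contra hlt
  have hlt' : δ < Dx - Dy := lt_of_not_ge hlt
  set k := 2 * sin a * (sin t - sin a) with hk'
  have hk0 : 0 ≤ k := by
    have : 0 ≤ sin t - sin a := by linarith
    positivity
  have hk1 : 0 < 1 - k := by
    have h1 : sin t ≤ 1 := sin_le_one t
    have : k ≤ 2 * sin a * (1 - sin a) := by
      rw [hk']; apply mul_le_mul_of_nonneg_left _ (by positivity); linarith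
    nlinarith [sq_nonneg (1 - sin a), sq_nonneg (sin a), sq_nonneg (2 * sin a - 1)]
  set c := 1 / sqrt (1 - k) with hc'
  have hsq : sqrt (1 - k) ^ 2 = 1 - k := sq_sqrt hk1.le
  have hsqp : 0 < sqrt (1 - k) := sqrt_pos.mpr hk1
  have hsq1 : sqrt (1 - k) ≤ 1 := by
    rw [sqrt_le_one]; linarith
  have hc1 : 1 ≤ c := by
    rw [hc', le_div_iff₀ hsqp]; linarith
  have hc0 : 0 < c := by linarith
  have hc2 : c ^ 2 * (1 - k) = 1 := by
    rw [hc', div_pow, hsq]; field_simp
  -- the two vectors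
  set p := (1 - 2 * sin a * sin t) / (1 - k) with hp
  set q := 2 * sin a * cos t / (1 - k) with hq
  have pt := sin_sq_add_cos_sq t
  have hpq : p ^ 2 + q ^ 2 ≤ 1 := by
    rw [hp, hq, div_pow, div_pow, ← add_div, div_le_one (by positivity)]
    have h1 : (1 - 2 * sin a * sin t) ^ 2 + (2 * sin a * cos t) ^ 2 = 1 - 2 * k := by
      rw [hk']; linear_combination (4 * sin a ^ 2) * pt
    rw [h1]; nlinarith [sq_nonneg k]
  have key1 : ∀ d D : ℝ, sin D ^ 2 = sin a ^ 2 + sin d ^ 2 + 2 * sin a * sin d * cos (t + d) →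
      1 - 2 * (c * sin D) ^ 2 = p * cos (2 * d) - q * sin (2 * d) := by
    intro d D hD
    have h1 : 2 * (c * sin D) ^ 2 = 2 * sin D ^ 2 / (1 - k) := by
      rw [mul_pow, eq_div_iff hk1.ne']
      linear_combination (2 * sin D ^ 2) * hc2
    rw [h1, hp, hq, div_mul_eq_mul_div, div_mul_eq_mul_div, ← sub_div, eq_div_iff hk1.ne',
      sub_mul, div_mul_cancel₀ _ hk1.ne', hD, cos_two_mul, sin_two_mul, cos_add, hk']
    have pd := sin_sq_add_cos_sq d
    linear_combination (-2 + 4 * sin a * sin t) * pd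
  have hle1 : ∀ d D : ℝ, sin D ^ 2 = sin a ^ 2 + sin d ^ 2 + 2 * sin a * sin d * cos (t + d) →
      (c * sin D) ^ 2 ≤ 1 := by
    intro d D hD
    have h1 := key1 d D hD
    have h2 : (p * cos (2 * d) - q * sin (2 * d)) ^ 2 ≤ 1 := by
      have pd := sin_sq_add_cos_sq (2 * d)
      nlinarith [sq_nonneg (p * sin (2 * d) + q * cos (2 * d))]
    have h3 : -1 ≤ p * cos (2 * d) - q * sin (2 * d) := (abs_le_of_sq_le_sq' (by simpa using h2)
      zero_le_one).1
    linarith
  have hDx0 : 0 ≤ Dx := by linarith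
  have sDy : 0 ≤ sin Dy := sin_nonneg_of_nonneg_of_le_pi hDy0 (by linarith)
  have sDx : 0 ≤ sin Dx := sin_nonneg_of_nonneg_of_le_pi hDx0 (by linarith)
  set δ' := Dx - Dy with hδ'
  have hδ'1 : δ' ≤ π / 2 := by linarith
  have sδ' : 0 ≤ sin δ' := sin_nonneg_of_nonneg_of_le_pi (by linarith) (by linarith)
  have hley : c * sin Dy ≤ 1 := by
    have := hle1 dy Dy hDy
    nlinarith [mul_nonneg hc0.le sDy]
  have hlex : c * sin Dx ≤ 1 := by
    have := hle1 dx Dx hDx
    nlinarith [mul_nonneg hc0.le sDx]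
  have hleδ : c * sin δ' ≤ 1 := by
    have : sin δ' ≤ sin Dx := sin_le_sin_of_le_of_le_pi_div_two (by linarith) hDx1 (by linarith)
    nlinarith
  set Hy := arcsin (c * sin Dy) with hHy
  set Hx := arcsin (c * sin Dx) with hHx
  set Hd := arcsin (c * sin δ') with hHd
  have nny : 0 ≤ c * sin Dy := by positivity
  have nnx : 0 ≤ c * sin Dx := by positivity
  have nnd : 0 ≤ c * sin δ' := by positivity
  have sHy : sin Hy = c * sin Dy := sin_arcsin (by linarith) hley
  have sHx : sin Hx = c * sin Dx := sin_arcsin (by linarith) hlex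
  have sHd : sin Hd = c * sin δ' := sin_arcsin (by linarith) hleδ
  have Hy0 : 0 ≤ Hy := arcsin_nonneg.mpr nny
  have Hx0 : 0 ≤ Hx := arcsin_nonneg.mpr nnx
  have Hd0 : 0 ≤ Hd := arcsin_nonneg.mpr nnd
  have Hy1 : Hy ≤ π / 2 := arcsin_le_pi_div_two _
  have Hx1 : Hx ≤ π / 2 := arcsin_le_pi_div_two _
  have Hd1 : Hd ≤ π / 2 := arcsin_le_pi_div_two _
  -- superadditivity
  have hsup : Hy + Hd ≤ Hx :=
    superadd hc1 hDy0 (by linarith : (0:ℝ) ≤ δ') (by linarith : Dy + δ' ≤ Dx) hDx1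
      Hy0 Hy1 Hd0 Hd1 Hx0 sHy sHd sHx
  -- Lipschitz
  have hL : 2 * Hx - 2 * Hy ≤ 2 * dx - 2 * dy := by
    apply lip hpq (by linarith) (by linarith) (by linarith) (by linarith) (al := 2 * dy)
      (be := 2 * dx)
    · rw [← key1 dy Dy hDy, cos_two_mul', cos_sq', sHy]; ring
    · rw [← key1 dx Dx hDx, cos_two_mul', cos_sq', sHx]; ring
    · linarith
  -- strictness
  have hstrict : sin (dx - dy) < sin Hd := by
    rw [sHd]
    have h1 : sin δ < sin δ' := sin_lt_sin_of_lt_of_le_pi_div_two (by linarith) hδ'1 hlt'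
    have h2 : 0 ≤ sin δ := sin_nonneg_of_nonneg_of_le_pi hδ0 (by linarith)
    have h3 : sin δ ^ 2 < sin δ' ^ 2 := by nlinarith
    have h4 : (1 - k) * sin (dx - dy) ^ 2 < sin δ' ^ 2 := by linarith
    have h5 : sin (dx - dy) ^ 2 < (c * sin δ') ^ 2 := by
      have h6 : c ^ 2 * ((1 - k) * sin (dx - dy) ^ 2) < c ^ 2 * sin δ' ^ 2 :=
        mul_lt_mul_of_pos_left h4 (by positivity)
      have h7 : c ^ 2 * ((1 - k) * sin (dx - dy) ^ 2) = sin (dx - dy) ^ 2 := by
        linear_combination (sin (dx - dy) ^ 2) * hc2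
      rw [mul_pow]; linarith
    have h8 : 0 ≤ sin (dx - dy) := sin_nonneg_of_nonneg_of_le_pi (by linarith) (by linarith)
    nlinarith
  have hlt2 : dx - dy < Hd := by
    by_contra hge
    have hge' : Hd ≤ dx - dy := le_of_not_gt hge
    have := sin_le_sin_of_le_of_le_pi_div_two (by linarith : -(π / 2) ≤ Hd) hd' hge'
    linarith
  linarith

end Pool.Agent.Helper72.EF
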