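import Mathlib
import Pool.Agent.Helper72.EF.Key
import Pool.Agent.Helper72.EF.XTwo
import Pool.Agent.Helper72.EF.Conc

/-! # Wheel inequality: THEOREM P (pure reals)

Half arcs `a, b, y, x` of the four rim points seen from the hub, `ψ_b = e`, `ψ_y = φ`,
`ψ_x = φ + t`, half arcs `G, Y, X` of `ab`, `ay`, `ax`. The hypothesis `hX1` is the case
`x` and `y` at the same distance from the hub (inequality (4PT)).
-/

namespace Pool.Agent.Helper72.EF

open Real

/-- The strengthening of the key lemma used at the end X2. -/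
theorem key_step {a b G e t τ : ℝ} (ha : 0 < a) (hb : 0 < b) (he1 : e ≤ π / 2)
    (het : e ≤ t) (ht1 : t ≤ π / 2) (hG0 : 0 ≤ G) (hG1 : G ≤ π / 2)
    (hG : sin G ^ 2 = sin a ^ 2 + sin b ^ 2 + 2 * sin a * sin b * cos e)
    (ha1 : a ≤ π / 2) (hb1 : b ≤ π / 2) (he0 : 0 < e)
    (hτ0 : e - b ≤ τ) (hτ1 : τ ≤ π - e) (hpos : 0 < a + b - G) :
    a + b ≤ e ∧ (1 - 2 * sin a * (sin τ - sin a)) * sin t ^ 2 ≤ sin (t - (a + b - G)) ^ 2 := by
  have hpi := pi_pos
  have sa : 0 < sin a := sin_pos_of_pos_of_lt_pi ha (by linarith)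
  have sb : 0 < sin b := sin_pos_of_pos_of_lt_pi hb (by linarith)
  have ce : 0 ≤ cos e := cos_nonneg_of_neg_pi_div_two_le_of_le (by linarith) he1
  have hab : a + b ≤ π / 2 := by
    have h1 : sin a ^ 2 ≤ sin (π / 2 - b) ^ 2 := by
      rw [sin_pi_div_two_sub]
      have h2 := sin_sq_le_one G
      have h3 : 0 ≤ 2 * sin a * sin b * cos e := by positivity
      nlinarith [sin_sq_add_cos_sq b]
    have := le_of_sin_sq ha1 (by linarith) h1
    linarith
  have habe : a + b ≤ e := by
    by_contra hlt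
    have hlt' : e < a + b := lt_of_not_ge hlt
    have h1 : cos (a + b) ≤ cos e :=
      cos_le_cos_of_nonneg_of_le_pi he0.le (by linarith) hlt'.le
    have h2 : sin (a + b) ^ 2 ≤ sin G ^ 2 := by
      rw [sin_add_sq, hG]
      have : 0 ≤ 2 * sin a * sin b * (cos e - cos (a + b)) := by
        have : 0 ≤ cos e - cos (a + b) := by linarith
        positivity
      linarith
    have := le_of_sin_sq hab hG0 h2
    linarith
  refine ⟨habe, ?_⟩
  -- the key lemma with `2 h = e - a - b`
  obtain ⟨h, hh⟩ : ∃ h : ℝ, 2 * h = e - a - b := ⟨(e - a - b) / 2, by ring⟩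
  have hh0 : 0 ≤ h := by linarith
  have hee : a + b + 2 * h = e := by linarith
  have K := key (x := a) (y := b) (h := h) (g := G) ha hb hh0 (by linarith) hG0 hG1
    (by rw [hee]; exact hG)
  rw [hee] at K
  have hk1 : 4 * sin a * cos (a + h) * sin h = 2 * sin a * (sin (e - b) - sin a) := by
    have a1 : sin (e - b) = sin (a + h) * cos h + cos (a + h) * sin h := by
      rw [← sin_add]; congr 1; linarith
    have a2 : sin a = sin (a + h) * cos h - cos (a + h) * sin h := by
      rw [← sin_sub]; congr 1; ring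
    have a3 : sin (e - b) - sin a = 2 * (cos (a + h) * sin h) := by
      rw [a1]; linear_combination -a2
    rw [a3]; ring
  have hs : sin (e - b) ≤ sin τ := by
    rcases le_or_gt τ (π / 2) with h1 | h1
    · exact sin_le_sin_of_le_of_le_pi_div_two (by linarith) h1 hτ0
    · rw [← sin_pi_sub τ]
      exact sin_le_sin_of_le_of_le_pi_div_two (by linarith) (by linarith) (by linarith)
  set E := a + b - G with hE
  have heE : 2 * h + G = e - E := by rw [hE]; linarith
  rw [hk1, heE] at K
  have se : 0 < sin e := sin_pos_of_pos_of_lt_pi he0 (by linarith)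
  have K2 : (1 - 2 * sin a * (sin τ - sin a)) * sin e ^ 2 ≤ sin (e - E) ^ 2 := by
    have : 2 * sin a * (sin (e - b) - sin a) ≤ 2 * sin a * (sin τ - sin a) :=
      mul_le_mul_of_nonneg_left (by linarith) (by positivity)
    have h2 : (1 - 2 * sin a * (sin τ - sin a)) * sin e ^ 2 ≤
        (1 - 2 * sin a * (sin (e - b) - sin a)) * sin e ^ 2 :=
      mul_le_mul_of_nonneg_right (by linarith) (by positivity)
    linarith
  -- from e to t
  have sE : 0 ≤ sin E := sin_nonneg_of_nonneg_of_le_pi (by linarith) (by linarith)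
  have ste : 0 ≤ sin (t - e) := sin_nonneg_of_nonneg_of_le_pi (by linarith) (by linarith)
  have st : 0 ≤ sin t := sin_nonneg_of_nonneg_of_le_pi (by linarith) (by linarith)
  have seE : 0 ≤ sin (e - E) := sin_nonneg_of_nonneg_of_le_pi (by linarith) (by linarith)
  have h4 : sin (e - E) * sin t ≤ sin (t - E) * sin e := by
    have : sin (t - E) * sin e - sin (e - E) * sin t = sin E * sin (t - e) := by
      rw [sin_sub t E, sin_sub e E, sin_sub t e]; ring
    nlinarith [mul_nonneg sE ste]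
  have h5 : (sin (e - E) * sin t) ^ 2 ≤ (sin (t - E) * sin e) ^ 2 :=
    pow_le_pow_left₀ (by positivity) h4 2
  have h6 : ((1 - 2 * sin a * (sin τ - sin a)) * sin t ^ 2) * sin e ^ 2 ≤
      sin (t - E) ^ 2 * sin e ^ 2 := by
    have h7 := mul_le_mul_of_nonneg_right K2 (sq_nonneg (sin t))
    nlinarith
  exact le_of_mul_le_mul_right h6 (by positivity)

/-- THEOREM P. -/
theorem thmP {a b y x G Y X e t φ : ℝ}
    (ha : 0 < a) (ha1 : a ≤ π / 2) (hb : 0 < b) (hb1 : b ≤ π / 2) (hy : 0 < y)
    (hyx : y ≤ x) (hx1 : x ≤ π / 2) (hxt : x ≤ y + t)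
    (he0 : 0 < e) (he1 : e ≤ π / 2) (het : e ≤ t) (ht1 : t ≤ π / 2)
    (hφt : φ + t ≤ π) (hωy : a + y ≤ φ) (hωb : e - b ≤ φ - y)
    (hG0 : 0 ≤ G) (hG1 : G ≤ π / 2) (hY0 : 0 ≤ Y) (hY1 : Y ≤ π / 2) (hX1 : X ≤ π / 2)
    (eG : sin G ^ 2 = sin a ^ 2 + sin b ^ 2 + 2 * sin a * sin b * cos e)
    (eY : sin Y ^ 2 = sin a ^ 2 + sin y ^ 2 + 2 * sin a * sin y * cos φ)
    (eX : sin X ^ 2 = sin a ^ 2 + sin x ^ 2 + 2 * sin a * sin x * cos (φ + t))
    (h4 : ∀ D : ℝ, 0 ≤ D → D ≤ π / 2 →
      sin D ^ 2 = sin a ^ 2 + sin y ^ 2 + 2 * sin a * sin y * cos (φ + e) →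
      D + a + b ≤ Y + G) :
    X + y + a + b ≤ x + Y + G := by
  have hpi := pi_pos
  have sa : 0 < sin a := sin_pos_of_pos_of_lt_pi ha (by linarith)
  have sy : 0 < sin y := sin_pos_of_pos_of_lt_pi hy (by linarith)
  have hsY := semi ha.le ha1 hy.le (by linarith) hY1 hωy (by linarith) eY
  -- points of the ray of `x`
  have hval0 : ∀ z ψ : ℝ, 0 ≤ sin a ^ 2 + sin z ^ 2 + 2 * sin a * sin z * cos ψ := by
    intro z ψ
    nlinarith [sq_nonneg (sin a + sin z * cos ψ), sq_nonneg (sin z), cos_sq_le_one ψ,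
      mul_nonneg (sq_nonneg (sin z)) (sub_nonneg.mpr (cos_sq_le_one ψ))]
  have hcos1 : cos (φ + e) ≤ cos φ :=
    cos_le_cos_of_nonneg_of_le_pi (by linarith) (by linarith) (by linarith)
  have hcos2 : cos (φ + t) ≤ cos (φ + e) :=
    cos_le_cos_of_nonneg_of_le_pi (by linarith) hφt (by linarith)
  have hv1 : sin a ^ 2 + sin y ^ 2 + 2 * sin a * sin y * cos (φ + e) ≤ sin Y ^ 2 := by
    rw [eY]; nlinarith [mul_pos sa sy]
  have hv2 : sin a ^ 2 + sin y ^ 2 + 2 * sin a * sin y * cos (φ + t) ≤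
      sin a ^ 2 + sin y ^ 2 + 2 * sin a * sin y * cos (φ + e) := by nlinarith [mul_pos sa sy]
  obtain ⟨D', hD'0, hD'1, eD'⟩ := exists_half (hval0 y (φ + e))
    (hv1.trans (sin_sq_le_one Y))
  obtain ⟨D, hD0, hD1, eD⟩ := exists_half (hval0 y (φ + t))
    (hv2.trans (hv1.trans (sin_sq_le_one Y)))
  have hDD' : D ≤ D' := le_of_sin_sq hD1 hD'0 (by rw [eD, eD']; exact hv2)
  have hD'Y : D' ≤ Y := le_of_sin_sq hD'1 hY0 (by rw [eD']; exact hv1)
  have hX14 : D' + a + b ≤ Y + G := h4 D' hD'0 hD'1 eD'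
  -- Case A
  rcases le_or_gt D y with hA | hB
  · have := mono (a := a) (ψ := φ + t) hy.le hyx hx1 hD0 hA hX1 eX eD
    linarith
  set τ := φ - y with hτ
  -- Case C : `a` outside the circle
  rcases lt_or_ge (sin τ) (sin a) with hC | hC
  · -- then `x` is before the foot
    have haτ : a ≤ τ := by rw [hτ]; linarith
    have hτ2 : π - τ < a := by
      by_contra hge
      have hge' : a ≤ π - τ := le_of_not_gt hge
      rcases le_or_gt τ (π / 2) with h1 | h1
      · have := sin_le_sin_of_le_of_le_pi_div_two (by linarith) h1 haτ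
        linarith
      · have := sin_le_sin_of_le_of_le_pi_div_two (x := a) (y := π - τ) (by linarith)
          (by linarith) hge'
        rw [sin_pi_sub] at this
        linarith
    -- z = y + t
    have hz : y + t ≤ π - τ := by rw [hτ]; linarith
    have hcosψ : cos (a - (y + t)) ≤ - cos (φ + t) := by
      rw [← cos_pi_sub]
      apply cos_le_cos_of_nonneg_of_le_pi
      · linarith
      · linarith
      · rw [hτ] at hτ2; linarith
    have hn : sin (y + t) ≤ -(sin a * cos (φ + t)) := by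
      have h1 : sin (y + t) = sin a * cos (a - (y + t)) - cos a * sin (a - (y + t)) := by
        rw [← sin_sub]; congr 1; ring
      have h2 : 0 ≤ cos a * sin (a - (y + t)) :=
        mul_nonneg (cos_nonneg_of_neg_pi_div_two_le_of_le (by linarith) ha1)
          (sin_nonneg_of_nonneg_of_le_pi (by linarith) (by linarith))
      nlinarith
    have hyt : y + t ≤ π / 2 := by linarith
    have s1 : sin y ≤ sin x := sin_le_sin_of_le_of_le_pi_div_two (by linarith) hx1 hyx
    have s2 : sin x ≤ sin (y + t) := sin_le_sin_of_le_of_le_pi_div_two (by linarith) hyt hxt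
    have hXD : X ≤ D := by
      apply le_of_sin_sq hX1 hD0
      rw [eX, eD]
      nlinarith [mul_nonneg (sub_nonneg.mpr s1)
        (show 0 ≤ 2 * (-(sin a * cos (φ + t))) - sin x - sin y by linarith)]
    linarith
  -- Case B
  set M := max (a + b - G) 0 with hM
  have hM0 : 0 ≤ M := le_max_right _ _
  have hMb : a + b - G ≤ M := le_max_left _ _
  set T := a + y - Y + M with hT
  have hT0 : 0 ≤ T := by rw [hT]; linarith [hsY.1]
  have hTD : T ≤ a + y - D := by
    rw [hT]
    have : M ≤ Y - D := by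
      rw [hM]; apply max_le
      · linarith
      · linarith
    linarith
  -- the upper end
  have hend : ∃ d2 D2 : ℝ, x ≤ d2 ∧ d2 ≤ π / 2 ∧ a + d2 ≤ φ + t ∧ 0 ≤ D2 ∧ D2 ≤ π / 2 ∧
      sin D2 ^ 2 = sin a ^ 2 + sin d2 ^ 2 + 2 * sin a * sin d2 * cos (φ + t) ∧
      D2 ≤ (a - T) + d2 := by
    -- existence of D2 for a given d2
    have hex : ∀ d2 : ℝ, 0 ≤ d2 → d2 ≤ π / 2 → a + d2 ≤ φ + t →
        ∃ D2 : ℝ, 0 ≤ D2 ∧ D2 ≤ π / 2 ∧
          sin D2 ^ 2 = sin a ^ 2 + sin d2 ^ 2 + 2 * sin a * sin d2 * cos (φ + t) := by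
      intro d2 h0 h1 h2
      apply exists_half (hval0 d2 (φ + t))
      have h3 : cos (φ + t) ≤ cos (a + d2) :=
        cos_le_cos_of_nonneg_of_le_pi (by linarith) hφt h2
      have h4 := sin_sq_le_one (a + d2)
      rw [sin_add_sq] at h4
      have h5 : 0 ≤ sin d2 := sin_nonneg_of_nonneg_of_le_pi h0 (by linarith)
      have h6 : 0 ≤ 2 * sin a * sin d2 * (cos (a + d2) - cos (φ + t)) := by
        have : 0 ≤ cos (a + d2) - cos (φ + t) := by linarith
        positivity
      linarith
    rcases le_or_gt (y + t) (π / 2) with h1 | h1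
    · obtain ⟨D2, h20, h21, e2⟩ := hex (y + t) (by linarith) h1 (by linarith)
      refine ⟨y + t, D2, hxt, h1, by linarith, h20, h21, e2, ?_⟩
      -- X2
      have hτ1 : τ + y = φ := by rw [hτ]; ring
      have hτ2 : τ + (y + t) = φ + t := by rw [hτ]; ring
      have main : D2 - Y ≤ t - M := by
        rcases le_or_gt (a + b - G) 0 with hneg | hpos
        · have hM' : M = 0 := by rw [hM]; exact max_eq_right hneg
          rw [hM', sub_zero]
          apply xtwo (a := a) (t := τ) (dy := y) (dx := y + t) hC sa.le (by linarith)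
            (by linarith) hY0 h21 (by rw [hτ1]; exact eY) (by rw [hτ2]; exact e2) (by linarith)
          have h3 : 0 ≤ 2 * sin a * (sin τ - sin a) := by
            have : 0 ≤ sin τ - sin a := by linarith
            positivity
          have h4 : y + t - y = t := by ring
          rw [h4]
          nlinarith [sq_nonneg (sin t)]
        · have hM' : M = a + b - G := by rw [hM]; exact max_eq_left hpos.le
          rw [hM']
          have ks := key_step (τ := τ) ha hb he1 het ht1 hG0 hG1 eG ha1 hb1 he0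
            (by rw [hτ]; exact hωb) (by rw [hτ]; linarith) hpos
          apply xtwo (a := a) (t := τ) (dy := y) (dx := y + t) hC sa.le (by linarith)
            (by linarith) hY0 h21 (by rw [hτ1]; exact eY) (by rw [hτ2]; exact e2)
            (by linarith [ks.1])
          have h4 : y + t - y = t := by ring
          rw [h4]
          exact ks.2
      rw [hT]; linarith
    · obtain ⟨D2, h20, h21, e2⟩ := hex (π / 2) (by linarith) le_rfl (by linarith)
      refine ⟨π / 2, D2, hx1, le_rfl, by linarith, h20, h21, e2, ?_⟩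
      linarith
  obtain ⟨d2, D2, hxd2, hd21, hψ2, h20, h21, e2, hD2⟩ := hend
  have hfin : X ≤ (a - T) + x :=
    qconc (a := a) (δ := a - T) (ψ := φ + t) (d1 := y) (d := x) (d2 := d2) (D1 := D) (D := X)
      (D2 := D2) ha1 (by linarith) (by linarith) hy.le hyx hxd2 hd21 hX1 hD0 hD1 h20 h21
      eX eD e2 hψ2 hφt (by linarith) hD2
  rw [hT] at hfin
  linarith

end Pool.Agent.Helper72.EF
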