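import Mathlib
import Pool.Agent.Helper72.EF.Key
import Pool.Agent.Helper72.EF.Conc
import Pool.Agent.Helper72.EF.P

/-! # Wheel inequality: the end X1, inequality (4PT) -/

namespace Pool.Agent.Helper72.EF

open Real

/-- Convexity of `arcsin` in the form of half arcs. -/
theorem conv_half {P Q U V : ℝ} (hP : 0 ≤ P) (hQ : Q ≤ π / 2) (hU1 : U ≤ Q)
    (hV1 : V ≤ Q) (h : sin U + sin V ≤ sin P + sin Q) : U + V ≤ P + Q := by
  have hpi := pi_pos
  by_contra hlt
  have hlt' : P + Q < U + V := lt_of_not_ge hlt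
  have e1 : sin U + sin V = 2 * sin ((U + V) / 2) * cos ((U - V) / 2) := by
    have a1 : sin U = sin ((U + V) / 2) * cos ((U - V) / 2) +
        cos ((U + V) / 2) * sin ((U - V) / 2) := by rw [← sin_add]; congr 1; ring
    have a2 : sin V = sin ((U + V) / 2) * cos ((U - V) / 2) -
        cos ((U + V) / 2) * sin ((U - V) / 2) := by rw [← sin_sub]; congr 1; ring
    rw [a1, a2]; ring
  have e2 : sin P + sin Q = 2 * sin ((P + Q) / 2) * cos ((Q - P) / 2) := by
    have a1 : sin Q = sin ((P + Q) / 2) * cos ((Q - P) / 2) +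
        cos ((P + Q) / 2) * sin ((Q - P) / 2) := by rw [← sin_add]; congr 1; ring
    have a2 : sin P = sin ((P + Q) / 2) * cos ((Q - P) / 2) -
        cos ((P + Q) / 2) * sin ((Q - P) / 2) := by rw [← sin_sub]; congr 1; ring
    rw [a1, a2]; ring
  have c1 : cos ((Q - P) / 2) ≤ cos ((U - V) / 2) := by
    rw [← cos_abs ((U - V) / 2)]
    apply cos_le_cos_of_nonneg_of_le_pi (abs_nonneg _) (by linarith)
    rw [abs_le]; constructor <;> linarith
  have c2 : 0 < cos ((Q - P) / 2) := cos_pos_of_mem_Ioo ⟨by linarith, by linarith⟩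
  have s1 : sin ((P + Q) / 2) < sin ((U + V) / 2) :=
    sin_lt_sin_of_lt_of_le_pi_div_two (by linarith) (by linarith) (by linarith)
  have s2 : 0 ≤ sin ((P + Q) / 2) := sin_nonneg_of_nonneg_of_le_pi (by linarith) (by linarith)
  nlinarith [mul_lt_mul_of_pos_right s1 c2, mul_le_mul_of_nonneg_left c1 (s2.trans s1.le)]

/-- (4PT), flat case, for half chords. -/
theorem flat {a b y G Y D e φ : ℝ} (ha : 0 < a) (ha1 : a ≤ π / 2) (hb : 0 < b)
    (hb1 : b ≤ π / 2) (hy : 0 < y) (hy1 : y ≤ π / 2) (he0 : 0 < e) (he1 : e ≤ π / 2)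
    (hφ : 0 < φ) (hφe : φ + e ≤ π)
    (hG0 : 0 ≤ G) (hG1 : G ≤ π / 2) (hY0 : 0 ≤ Y) (hY1 : Y ≤ π / 2)
    (hD0 : 0 ≤ D) (hD1 : D ≤ π / 2)
    (eG : sin G ^ 2 = sin a ^ 2 + sin b ^ 2 + 2 * sin a * sin b * cos e)
    (eY : sin Y ^ 2 = sin a ^ 2 + sin y ^ 2 + 2 * sin a * sin y * cos φ)
    (eD : sin D ^ 2 = sin a ^ 2 + sin y ^ 2 + 2 * sin a * sin y * cos (φ + e))
    (hc : sin a * sin b * sin e ≤ sin a * sin y * sin φ + sin b * sin y * sin (φ - e)) :
    sin D + sin a + sin b ≤ sin Y + sin G := by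
  have hpi := pi_pos
  have sa : 0 < sin a := sin_pos_of_pos_of_lt_pi ha (by linarith)
  have sb : 0 < sin b := sin_pos_of_pos_of_lt_pi hb (by linarith)
  have sy : 0 < sin y := sin_pos_of_pos_of_lt_pi hy (by linarith)
  have se : 0 < sin e := sin_pos_of_pos_of_lt_pi he0 (by linarith)
  have sφ : 0 < sin φ := sin_pos_of_pos_of_lt_pi hφ (by linarith)
  have sφe : 0 ≤ sin (φ + e) := sin_nonneg_of_nonneg_of_le_pi (by linarith) hφe
  have sG0 : 0 ≤ sin G := sin_nonneg_of_nonneg_of_le_pi hG0 (by linarith)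
  have sY0 : 0 ≤ sin Y := sin_nonneg_of_nonneg_of_le_pi hY0 (by linarith)
  have sD0 : 0 ≤ sin D := sin_nonneg_of_nonneg_of_le_pi hD0 (by linarith)
  have ce : 0 ≤ cos e := cos_nonneg_of_neg_pi_div_two_le_of_le (by linarith) he1
  have pe := sin_sq_add_cos_sq e
  have pφ := sin_sq_add_cos_sq φ
  -- two forms of the squares
  have eG' : sin G ^ 2 = (sin a + sin b * cos e) ^ 2 + (sin b * sin e) ^ 2 := by
    rw [eG]; linear_combination (-(sin b ^ 2)) * pe
  have eY' : sin Y ^ 2 = (sin a + sin y * cos φ) ^ 2 + (sin y * sin φ) ^ 2 := by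
    rw [eY]; linear_combination (-(sin y ^ 2)) * pφ
  have sG : 0 < sin G := by
    rcases sG0.eq_or_lt with h | h
    · rw [← h] at eG'
      have : 0 < sin b * sin e := by positivity
      nlinarith [sq_nonneg (sin a + sin b * cos e)]
    · exact h
  have sY : 0 < sin Y := by
    rcases sY0.eq_or_lt with h | h
    · rw [← h] at eY'
      have : 0 < sin y * sin φ := by positivity
      nlinarith [sq_nonneg (sin a + sin y * cos φ)]
    · exact h
  -- claim U
  have U : sin b * sin e * sin Y ≤ sin y * sin φ * sin G := by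
    apply le_of_sq_le_sq _ (by positivity)
    have hP : (sin b * sin e * (sin a + sin y * cos φ)) ^ 2 ≤
        (sin y * sin φ * (sin a + sin b * cos e)) ^ 2 := by
      apply sq_le_sq'
      · have : 0 ≤ sin a * sin b * sin e + sin a * sin y * sin φ +
            sin b * sin y * sin (φ + e) := by positivity
        rw [sin_add] at this
        nlinarith
      · rw [sin_sub] at hc
        nlinarith
    have h1 : (sin b * sin e * sin Y) ^ 2 = (sin b * sin e * (sin a + sin y * cos φ)) ^ 2 +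
        (sin b * sin e) ^ 2 * (sin y * sin φ) ^ 2 := by
      rw [mul_pow _ (sin Y), eY']; ring
    have h2 : (sin y * sin φ * sin G) ^ 2 = (sin y * sin φ * (sin a + sin b * cos e)) ^ 2 +
        (sin b * sin e) ^ 2 * (sin y * sin φ) ^ 2 := by
      rw [mul_pow _ (sin G), eG']; ring
    rw [h1, h2]; linarith
  -- half angles of e
  set S := sin (φ + e / 2) with hS
  set s := sin (e / 2) with hs
  set c := cos (e / 2) with hcc
  have sS : 0 ≤ S := sin_nonneg_of_nonneg_of_le_pi (by linarith) (by linarith)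
  have ss : 0 ≤ s := sin_nonneg_of_nonneg_of_le_pi (by linarith) (by linarith)
  have cc : 0 < c := cos_pos_of_mem_Ioo ⟨by linarith, by linarith⟩
  have g1 : sin e = 2 * s * c := by rw [hs, hcc, ← sin_two_mul]; congr 1; ring
  have g2 : sin (φ + e) + sin φ = 2 * S * c := by
    have a1 : sin (φ + e) = S * c + cos (φ + e / 2) * s := by
      rw [hS, hcc, hs, ← sin_add]; congr 1; ring
    have a2 : sin φ = S * c - cos (φ + e / 2) * s := by
      rw [hS, hcc, hs, ← sin_sub]; congr 1; ring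
    rw [a1, a2]; ring
  have g3 : cos φ - cos (φ + e) = 2 * S * s := by
    have a1 : cos (φ + e) = cos (φ + e / 2) * c - S * s := by
      rw [hS, hcc, hs, ← cos_add]; congr 1; ring
    have a2 : cos φ = cos (φ + e / 2) * c + S * s := by
      rw [hS, hcc, hs, ← cos_sub]; congr 1; ring
    rw [a1, a2]; ring
  have g4 : 1 - cos e = 2 * s ^ 2 := by
    have : cos e = 2 * c ^ 2 - 1 := by rw [hcc, ← cos_two_mul]; congr 1; ring
    have h2 := sin_sq_add_cos_sq (e / 2)
    rw [← hs, ← hcc] at h2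
    linarith
  have h5 : sin b * s * sin Y ≤ sin y * S * sin G := by
    have h6 : (2 * c) * (sin b * s * sin Y) ≤ (2 * c) * (sin y * S * sin G) := by
      have h7 : (2 * c) * (sin b * s * sin Y) = sin b * sin e * sin Y := by rw [g1]; ring
      have h8 : (2 * c) * (sin y * S * sin G) = sin y * (sin (φ + e) + sin φ) * sin G := by
        rw [g2]; ring
      rw [h7, h8]
      have : 0 ≤ sin y * sin (φ + e) * sin G := by positivity
      nlinarith
    exact le_of_mul_le_mul_left h6 (by positivity)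
  -- the two differences
  have hDY : sin D ≤ sin Y := by
    apply le_of_sq_le_sq _ sY.le
    have : 0 ≤ 2 * sin a * sin y * (2 * S * s) := by positivity
    rw [← g3] at this
    rw [eD, eY]; nlinarith
  have hGab : sin G ≤ sin a + sin b := by
    apply le_of_sq_le_sq _ (by positivity)
    have : 0 ≤ 2 * sin a * sin b * (2 * s ^ 2) := by positivity
    rw [← g4] at this
    rw [eG]; nlinarith
  have k1 : (sin Y - sin D) * (sin Y + sin D) = 4 * sin a * sin y * S * s := by
    have : sin Y ^ 2 - sin D ^ 2 = 2 * sin a * sin y * (2 * S * s) := by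
      rw [eY, eD, ← g3]; ring
    linear_combination this
  have k2 : (sin a + sin b - sin G) * (sin a + sin b + sin G) = 4 * sin a * sin b * s ^ 2 := by
    have : (sin a + sin b) ^ 2 - sin G ^ 2 = 2 * sin a * sin b * (2 * s ^ 2) := by
      rw [eG, ← g4]; ring
    linear_combination this
  have m1 : 4 * sin a * sin y * S * s ≤ (sin Y - sin D) * (2 * sin Y) := by
    rw [← k1]; apply mul_le_mul_of_nonneg_left _ (by linarith); linarith
  have m2 : (sin a + sin b - sin G) * (2 * sin G) ≤ 4 * sin a * sin b * s ^ 2 := by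
    rw [← k2]; apply mul_le_mul_of_nonneg_left _ (by linarith); linarith
  have m3 : (sin a + sin b - sin G) * (2 * sin G * sin Y) ≤
      (sin Y - sin D) * (2 * sin G * sin Y) := by
    have n1 := mul_le_mul_of_nonneg_right m1 sG.le
    have n2 := mul_le_mul_of_nonneg_right m2 sY.le
    have n3 := mul_le_mul_of_nonneg_left h5 (show 0 ≤ 4 * sin a * s by positivity)
    nlinarith
  have m4 := le_of_mul_le_mul_right m3 (by positivity)
  linarith

/-- (4PT). -/
theorem fourPT {a b y G Y D e φ : ℝ} (ha : 0 < a) (ha1 : a ≤ π / 2) (hb : 0 < b)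
    (hb1 : b ≤ π / 2) (hy : 0 < y) (hy1 : y ≤ π / 2) (he0 : 0 < e) (he1 : e ≤ π / 2)
    (hφ : 0 < φ) (hφe : φ + e ≤ π)
    (hG0 : 0 ≤ G) (hG1 : G ≤ π / 2) (hY0 : 0 ≤ Y) (hY1 : Y ≤ π / 2)
    (hD0 : 0 ≤ D) (hD1 : D ≤ π / 2)
    (eG : sin G ^ 2 = sin a ^ 2 + sin b ^ 2 + 2 * sin a * sin b * cos e)
    (eY : sin Y ^ 2 = sin a ^ 2 + sin y ^ 2 + 2 * sin a * sin y * cos φ)
    (eD : sin D ^ 2 = sin a ^ 2 + sin y ^ 2 + 2 * sin a * sin y * cos (φ + e))
    (hc : sin a * sin b * sin e ≤ sin a * sin y * sin φ + sin b * sin y * sin (φ - e)) :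
    D + a + b ≤ Y + G := by
  have hpi := pi_pos
  have hflat := flat ha ha1 hb hb1 hy hy1 he0 he1 hφ hφe hG0 hG1 hY0 hY1 hD0 hD1 eG eY eD hc
  have sa : 0 < sin a := sin_pos_of_pos_of_lt_pi ha (by linarith)
  have sb : 0 < sin b := sin_pos_of_pos_of_lt_pi hb (by linarith)
  have sD0 : 0 ≤ sin D := sin_nonneg_of_nonneg_of_le_pi hD0 (by linarith)
  have sG0 : 0 ≤ sin G := sin_nonneg_of_nonneg_of_le_pi hG0 (by linarith)
  have ce : 0 ≤ cos e := cos_nonneg_of_neg_pi_div_two_le_of_le (by linarith) he1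
  have hpos : 0 ≤ 2 * sin a * sin b * cos e := by positivity
  have haG : a ≤ G := le_of_sin_sq ha1 hG0 (by rw [eG]; nlinarith [sq_nonneg (sin b)])
  have hbG : b ≤ G := le_of_sin_sq hb1 hG0 (by rw [eG]; nlinarith [sq_nonneg (sin a)])
  have saG : sin a ≤ sin G := sin_le_sin_of_le_of_le_pi_div_two (by linarith) hG1 haG
  have sbG : sin b ≤ sin G := sin_le_sin_of_le_of_le_pi_div_two (by linarith) hG1 hbG
  have hGab : sin G ≤ sin a + sin b := by
    apply le_of_sq_le_sq _ (by positivity)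
    rw [eG]; nlinarith [mul_pos sa sb, cos_le_one e]
  set p := sin a + sin b - sin G with hp
  have hp0 : 0 ≤ p := by linarith
  have hp1 : p ≤ 1 := by linarith [sin_le_one a]
  set P := arcsin p with hP
  have sP : sin P = p := sin_arcsin (by linarith) hp1
  have P0 : 0 ≤ P := arcsin_nonneg.mpr hp0
  have P1 : P ≤ π / 2 := arcsin_le_pi_div_two _
  have s1 : a + b ≤ P + G := conv_half P0 hG1 haG hbG (by rw [sP, hp]; linarith)
  have hPY : P ≤ Y := by
    by_contra hlt
    have := sin_lt_sin_of_lt_of_le_pi_div_two (by linarith : -(π / 2) ≤ Y) P1 (lt_of_not_ge hlt)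
    linarith
  have hDY : D ≤ Y := by
    by_contra hlt
    have := sin_lt_sin_of_lt_of_le_pi_div_two (by linarith : -(π / 2) ≤ Y) hD1 (lt_of_not_ge hlt)
    linarith
  have s2 : P + D ≤ 0 + Y := conv_half le_rfl hY1 hPY hDY (by rw [sP, sin_zero]; linarith)
  linarith

/-- THEOREM P without the (4PT) hypothesis. -/
theorem thmP' {a b y x G Y X e t φ : ℝ}
    (ha : 0 < a) (ha1 : a ≤ π / 2) (hb : 0 < b) (hb1 : b ≤ π / 2) (hy : 0 < y)
    (hyx : y ≤ x) (hx1 : x ≤ π / 2) (hxt : x ≤ y + t)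
    (he0 : 0 < e) (he1 : e ≤ π / 2) (het : e ≤ t) (ht1 : t ≤ π / 2)
    (hφt : φ + t ≤ π) (hωy : a + y ≤ φ) (hωb : e - b ≤ φ - y)
    (hG0 : 0 ≤ G) (hG1 : G ≤ π / 2) (hY0 : 0 ≤ Y) (hY1 : Y ≤ π / 2) (hX1 : X ≤ π / 2)
    (eG : sin G ^ 2 = sin a ^ 2 + sin b ^ 2 + 2 * sin a * sin b * cos e)
    (eY : sin Y ^ 2 = sin a ^ 2 + sin y ^ 2 + 2 * sin a * sin y * cos φ)
    (eX : sin X ^ 2 = sin a ^ 2 + sin x ^ 2 + 2 * sin a * sin x * cos (φ + t))
    (hc : sin a * sin b * sin e ≤ sin a * sin y * sin φ + sin b * sin y * sin (φ - e)) :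
    X + y + a + b ≤ x + Y + G :=
  thmP ha ha1 hb hb1 hy hyx hx1 hxt he0 he1 het ht1 hφt hωy hωb hG0 hG1 hY0 hY1 hX1 eG eY eX
    (fun _ hD0 hD1 eD => fourPT ha ha1 hb hb1 hy (hyx.trans hx1) he0 he1 (by linarith)
      (by linarith) hG0 hG1 hY0 hY1 hD0 hD1 eG eY eD hc)

end Pool.Agent.Helper72.EF
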